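import Pool.Agent.R908.MainK

/-!
# Homological and numerical equivalence: varieties whose transcendental cohomology has no isotropic
subspace stable under the correspondences and the Galois group

Let `W` be a Weil cohomology theory with **any** coefficient field `K` of characteristic zero (for
instance `ℚ_ℓ`), on a class of smooth proper varieties over `k` closed under products. Let `𝒢` be a set
of symmetries of `W` (see `Symmetry`), for instance the Galois group of a finitely generated field
`k₀` with algebraic closure `k`, such that all varieties in the class are given with models over `k₀`;
`𝒢` may be empty. Let `P` be a set of varieties `X`
such that

* no nonzero `K`-subspace of the transcendental cohomology `T(X)` (the orthogonal complement of all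
  algebraic classes) which is stable under the algebraic correspondences and under `𝒢` is totally
  isotropic for the cup product: each subspace stable under `𝒢` and the correspondences of degree `0`
  pairs non-trivially with itself, possibly after applying a correspondence of some degree;
* the operator `(-1) ^ i` on `H^i` agrees on `T(X)` with a linear combination of algebraic
  correspondences. (This is trivial if `T(X)` lies in the even cohomology or in the odd cohomology,
  and known for all varieties over finite fields, by Katz and Messing.)

Nothing is assumed about the semisimplicity or the commutant of the correspondences or of `𝒢`, no
Tate classes are supposed to be algebraic, and no positivity is used. Let `𝒴` be **any** set of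
varieties; nothing is assumed about the relation between `P` and `𝒴`.

**Theorem.** The conjecture D holds for the members of `P` and for all products of members of `𝒴` if
and only if the conjectures D and B hold for all varieties dominated by products of members of
`P ∪ 𝒴`.

Examples.

* Let `k` be an algebraic closure of a finitely generated field `k₀` and `X` a variety over `k₀`,
  such that D holds for `X` (over `k`) and `T(X)` is an irreducible representation of the Galois group
  of `k₀`. Then D holds for all powers of `X` and for all products `X^n × Y`, if it holds for the powers
  of the variety `Y` over `k₀`. The image of the Galois group may be arbitrary. It suffices that `T(X)`
  is of pure parity, semisimple and that the irreducible constituents are dual to themselves (with the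
  Tate twist of the cup product form) and occur with multiplicity one.
* Let `k` be an algebraic closure of a finitely generated field of positive characteristic, `X` a
  curve over `k` whose Jacobian has no simple factor of type IV, and `W` the `ℓ`-adic cohomology, for
  **any** prime `ℓ ≠ p`. By the theorems of Tate, Zarhin and Mori a subspace of `H^1(X)` stable under
  the Galois group of a field of definition and the correspondences is the image of a central
  idempotent of `End(J) ⊗ ℚ_ℓ`. The Rosati involution is trivial on the centre, so that this subspace
  is not isotropic. Hence D (and B) hold for all varieties dominated by products of such curves, for
  all `ℓ ≠ p`. If there are factors of type IV, with centres `E` of the endomorphism algebras, the same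
  holds for those `ℓ` for which no place above `ℓ` of the maximal totally real subfields of the fields
  `E` splits in `E`.

The proof. Consider all multilinear forms on (the even or odd part of) `T = T(X)` which are given by
the numerically trivial classes on the products `X^m × Y`, `Y` a product of members of `𝒴`, and by
linear forms on `H(Y)`. They are closed under permutations of the variables, products, contraction
with the cup product form, and multiplication with the form, and there are no nonzero constants among
them by D for the products of members of `𝒴`. So all polynomial invariants of the orthogonal or
symplectic group of `T` without constant term vanish on these forms. If there were a nonzero form, then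
by the theorem of Hilbert and Mumford all these forms would be driven to zero by a one-parameter
subgroup over an algebraic closure of `K`, and by the theorem of Kempf there would be an optimal
such subgroup, whose flag of isotropic subspaces in `T` is canonical. Therefore this flag would be
defined over `K` and stable under `𝒢` and the algebraic correspondences, against the assumption. All
this is proved here from scratch.
-/

universe u v

namespace Pool.Agent.Results.MP_5f0950_ag.AnisotropicProducts

open Pool.Agent.H914 Pool.Agent.H281R3.HT Pool.Agent.R908

/-- **The conjecture D for products of varieties, some of which have a transcendental cohomology
without isotropic subspaces stable under the algebraic correspondences and the symmetries of the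
cohomology theory.** -/
theorem result {k : Type u} [Field k] {𝒱 : VarClass k} {ops : CycleOps 𝒱}
    (W : WeilCohomology.{u, v} ops) (𝒢 : Set (Symmetry W)) (P 𝒴 : Set 𝒱.Obj)
    (hs : ∀ X ∈ P, SignAlgebraic W X) (hP : ∀ X ∈ P, Anisotropic 𝒢 X) :
    ((∀ X ∈ P, HomEqNum W X) ∧ ∀ Y, IsProductOf 𝒴 Y → HomEqNum W Y) ↔
      ∀ Z, IsProductOf (P ∪ 𝒴) Z → ∀ V, Dominates W Z V → HomEqNum W V ∧
        ∀ D, V.IsCyc 1 D → HardLefschetz W V D → LefschetzB W V D :=
  anisotropic_iff 𝒢 hs hP

end Pool.Agent.Results.MP_5f0950_ag.AnisotropicProducts
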