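import Pool.Agent.R908.KqC

/-!
# Weights of the components of numerically trivial cycles on products with abelian varieties

Let `k` be a field (algebraically closed in the applications), of any characteristic, and `W` a Weil
cohomology theory with **any** coefficient field `K` of characteristic zero (for instance `ℚ_ℓ`), on a
class of smooth proper varieties over `k` closed under products, `𝒢` a set of symmetries of `W` (for
instance a Galois group; see `Symmetry`), and `A` an abelian variety (we use only that the cohomology
is generated by `H^1(A)`, that `m^* x = pr_1^* x + pr_2^* x` for `x` in `H^1(A)` and the addition `m`,
and a divisor `D` with hard Lefschetz, the class of which is multiplied by a constant by each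
symmetry). Assume that `H^1(A)` is the direct sum of *blocks* `V_l`, `l ∈ Λ`, the images of orthogonal
idempotents `p l` in the `K`-span of the algebraic correspondences of degree `0`, such that the adjoint
of `p l` for the form `tr (x D ^ (dim A - 1) y)` is `p (bar l)`, and such that each block is
irreducible under the algebraic correspondences and the symmetries. Let `𝒴` be **any** set of varieties
such that the conjecture D holds for all products of members of `𝒴`.

**Theorem.** There are weights `w l ∈ ℝ` of the blocks, with `w (bar l) = - w l`, such that for every
product `Y` of members of `𝒴` and every cycle `z` on `A × Y` which is numerically equivalent to zero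
all components of the class of `z` of weight `≥ 0` vanish: if the value of the class of `z` on the
product of `t_1 ∈ V_{l_1}`, …, `t_n ∈ V_{l_n}` and of a class on `Y` is not zero, then
`w l_1 + … + w l_n < 0`. Consequently

* the components of the class of `z` with *balanced* labels (the multiset of the `l_i` is stable under
  `bar`) are all zero;
* no two numerically trivial cycles `z`, `z'` (on `A × Y` and `A × Y'`) have nonzero components with
  opposite labels `l_i` and `bar l_i`.

The class of `z` is zero as soon as all components are.

Example. Let `k` be an algebraic closure of a finitely generated field `k₀` of characteristic `p > 0`,
and `W` the `ℓ`-adic cohomology, for **any** prime `ℓ ≠ p`. Let `A` be any abelian variety over `k₀`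
and let `Λ` be the set of the places above `ℓ` of the centres of the endomorphism algebras of the
simple factors of `A` over `k`, `bar` the action of the Rosati involution on these places, and `𝒢` the
Galois group of a finite extension of `k₀`. By the theorems of Tate, Zarhin and Mori this is a system
of irreducible blocks. So for **all** abelian varieties `A`, also of type IV, and all `ℓ ≠ p` the
balanced components of numerically trivial classes on `A × Y` vanish, for every `Y` (with `D` for the
powers of `Y`; for `Y` a point this is a statement about `A`). If there is no factor of type IV, or if
no place of the maximal totally real subfields of the centres above `ℓ` splits, then `bar l = l`, all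
labels are balanced, and `D` holds for `A × Y`. The only obstruction to the conjecture D for abelian
varieties for **all** `ℓ` is therefore the existence of numerically trivial cycles with nonzero
components of negative weight, for a place `l ≠ bar l` of type IV, and all such components are on one
side. Over finite fields the balanced components are known to be sums of products of divisor classes;
over fields of positive transcendence degree over `𝔽_p` they are not (as for the Weil type classes
with a totally real or non-split character at `ℓ`).

The proof. The multilinear forms on `V = H^1(A)` given by the numerically trivial classes on the
products `A^m × Z` and linear forms on `H(Z)` are closed under permutations of the variables, products,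
contraction with the polarisation form and multiplication with this form, and there are no nonzero
constants among them by D for `Z`. All invariants of the symplectic group without constant term vanish
on these forms, so that by the theorem of Hilbert and Mumford the forms are driven to zero by a
one-parameter subgroup over an algebraic closure of `K`, and by the theorem of Kempf there is an
optimal such subgroup, whose filtration of `V` is canonical, and therefore defined over `K` and stable
under the algebraic correspondences and `𝒢`. By irreducibility each block has a single weight in this
filtration, and the weights of the nonzero components are negative. All this is proved here from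
scratch. That the same weights can be used for all `Y` comes from the closure under products.
-/

universe u v

namespace Pool.Agent.Results.MP_5f0950_ag.ComponentWeights

open Pool.Agent.H914 Pool.Agent.H914.VarClass Pool.Agent.R908

/-- **The weights of the components of numerically trivial cycles on the products of an abelian
variety with arbitrary varieties satisfying D.** -/
theorem result {k : Type u} [Field k] {𝒱 : VarClass k} {ops : CycleOps 𝒱}
    (W : WeilCohomology.{u, v} ops) (𝒢 : Set (Symmetry W)) (A : 𝒱.Obj) (m : A.prod A ⟶ A)
    (D : A.Cycles) (hA : IsAbelianType 𝒢 A m D) {Λ : Type} [Fintype Λ] (bar : Λ → Λ)
    (p : Λ → Module.End W.K (W.H A)) (hp : IsBlockSystemOne 𝒢 A D bar p) (𝒴 : Set 𝒱.Obj)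
    (hY : ∀ Y, IsProductOf 𝒴 Y → HomEqNum W Y) :
    ∃ w : Λ → ℝ, (∀ l, w (bar l) = -w l) ∧
      ∀ Y : 𝒱.Obj, IsProductOf 𝒴 Y → ∀ (j : ℕ) (z : (A.prod Y).Cycles),
        IsNumTrivial ops (A.prod Y) j z →
        (∀ (n : ℕ) (l : Fin n → Λ) (t : Fin n → W.H A), InBlocks (W.gr A 1) p l t → ∀ y : W.H Y,
          component W z t y ≠ 0 → ∑ i, w (l i) < 0 ∧ ¬ BalancedLabels bar l) ∧
        (W.cl _ z ≠ 0 → ∃ (n : ℕ) (l : Fin n → Λ) (t : Fin n → W.H A) (y : W.H Y),
          InBlocks (W.gr A 1) p l t ∧ component W z t y ≠ 0) :=
  weights_cycles hA hp hY

end Pool.Agent.Results.MP_5f0950_ag.ComponentWeights
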