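import Pool.Agent.R908.KrD

/-!
# The conjecture D for an abelian variety follows from D for one of its specialisations

Let `k` be a field (algebraically closed in the applications), of any characteristic, and `W` a Weil
cohomology theory with **any** coefficient field `K` of characteristic zero, on a class of smooth
proper varieties over `k` closed under products, `𝒢` a set of symmetries of `W` (for instance a Galois
group; see `Symmetry`), and `A` an abelian variety (we use only that the cohomology is generated by
`H^1(A)`, that `m^* x = pr_1^* x + pr_2^* x` for `x` in `H^1(A)` and the addition `m`, and a divisor
`D` with hard Lefschetz, the class of which is multiplied by a constant by each symmetry). Assume that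
there is a cycle with rational coefficients on `A × A` acting on `H^1(A)` by an operator `e` with

* `e` is semisimple, its eigenvalues are algebraic numbers in `K`, and its adjoint for the polarisation
  form is `Q(e)`, with a rational polynomial `Q` giving the complex conjugate of each eigenvalue in
  each complex embedding;
* each eigenspace of `e` in `H^1(A)` is irreducible under the algebraic correspondences and `𝒢`.

For `k` an algebraic closure of a finitely generated field `k₀`, `𝒢` the Galois group of a finite
extension of `k₀`, and `K` an algebraic closure of `ℚ_ℓ`, this holds for **all** abelian varieties `A`
over `k₀` and all `ℓ ≠ char k`: for `e` one can take a generator of the centre of `End(A) ⊗ ℚ`, by the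
positivity of the Rosati involution and by the theorems of Tate, Zarhin, Mori and Faltings. Let `𝒴`
be **any** set of varieties such that the conjecture D (homological and numerical equivalence
coincide) holds for all products of its members, and `Y` such a product (for instance a point, if one
is interested in `A` only).

**Theorem.** If `A × Y` specialises to a variety `Z₀` over some other field, for which the conjecture D
holds, then D holds for every variety dominated by `A × Y` (in particular for
`A × Y` itself).

For `Y` a point this says that **the conjecture D for an abelian variety `A`, for the prime `ℓ`,
follows from D for a single specialisation `A₀` of `A`**, for the same `ℓ`; here no other varieties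
and no powers of `A₀` are involved. Each abelian variety in characteristic `p` has a specialisation
over an algebraic closure of `𝔽_p`. So if D holds, for a prime `ℓ`, for the abelian varieties of
dimension `g` over an algebraic closure of `𝔽_p`, then it holds for all abelian varieties of dimension
`g` over all fields of characteristic `p`.

Hence D holds for `A` and `ℓ`, without further hypothesis, if one reduction `A₀` of `A` over an algebraic
closure of `𝔽_p` satisfies the condition of Clozel (Ann. of Math. 1999) that the complex conjugation on
the Frobenius eigenvalues of `A₀` is induced by an automorphism of `K` over `ℚ_ℓ`, or one of the weaker
conditions in `AbelianAnisotropic` and `BalancedRelations` (for `MP_f569db_ag`) in this repository;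
here `A` itself need not satisfy such a condition (for example if `A` is of type IV, `ℓ` is split in the
centre of `End(A) ⊗ ℚ`, and `A₀` is isogenous to a power of an abelian variety `B` for which `ℓ` is inert,
or which is supersingular). The same is true for the products of such `A` with any `Y` for which D is
known for the powers of `Y` and of its reduction at this place. For abelian varieties of dimension at
most five, and for products of elliptic curves and abelian surfaces, D is known over all fields of
characteristic `p` by other means: there the Hodge standard conjecture is known for the special fibre
(file `DimensionFiveAndSurfaces` of the starting library, `Pool.Agent.Results.MP_54168f_ag`).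

It is not an easy matter that D is inherited by generisation: a cycle on `A` which is numerically
equivalent to zero can specialise to a cycle on `A₀` which is not, as there are more cycles on `A₀`.
If the Hodge standard conjecture is known for `A₀` and B holds for the generic fibre, one can use the
positivity; here no positivity is used (except for the Rosati involution in the example) and `Y` and
`Z₀` are varieties for which B or the Hodge standard conjecture need not be known.

The proof. By the theorems of Hilbert and Mumford and of Kempf (proved from scratch in previous
files) there are weights `w(a)` of the eigenspaces `V_a` of `e`, with `w(ā) = - w(a)`, such that
each nonzero component, in a product of `V_(a_1)`, …, `V_(a_n)` and `H(Y)`, of a numerically trivial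
class on `A × Y` has negative weight. There are algebraic correspondences on `A` which act on the
cohomology ring by derivations, extending the projectors to the `V_a`, so that they count the factors
in `V_a`; their coefficients are conjugate for `a` and `ā`. If cycles on `A × Y` with classes which are
linearly independent over `ℚ` have classes which are linearly independent over `K`, the complex
conjugation acts on the combinations of cycle classes with algebraic coefficients, so that with a
component with labels `a_1`, …, `a_n` also the conjugate component is nonzero, which is a
contradiction. This independence is inherited from specialisations, as the specialisation is injective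
on the cohomology, and it follows from D.
-/

universe u v u₀ v₀

namespace Pool.Agent.Results.MP_5f0950_ag.SpecialFibre

open CategoryTheory Pool.Agent.H914 Pool.Agent.H914.VarClass Pool.Agent.R908

/-- **The conjecture D for an abelian variety times a variety satisfying D, and for everything
dominated by it, follows from D for a specialisation.** -/
theorem result {k : Type u} [Field k] {𝒱 : VarClass k} {ops : CycleOps 𝒱}
    (W : WeilCohomology.{u, v} ops) (𝒢 : Set (Symmetry W)) (A : 𝒱.Obj) (m : A.prod A ⟶ A)
    (D : A.Cycles) (hA : IsAbelianType 𝒢 A m D) (he : HasConjugationOne 𝒢 A D)
    (𝒴 : Set 𝒱.Obj) (hY : ∀ Y, IsProductOf 𝒴 Y → HomEqNum W Y) (Y : 𝒱.Obj)
    (hYY : IsProductOf 𝒴 Y) {k₀ : Type u₀} [Field k₀] {𝒱₀ : VarClass k₀} {ops₀ : CycleOps 𝒱₀}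
    (W₀ : WeilCohomology.{u₀, v₀} ops₀) (Z₀ : 𝒱₀.Obj) (hs : SpecializesTo W W₀ (A.prod Y) Z₀)
    (h₀ : HomEqNum W₀ Z₀) (V : 𝒱.Obj) (hV : Dominates W (A.prod Y) V) : HomEqNum W V :=
  (homEqNum_of_specializesTo hA he hY hYY hs h₀).image hV

end Pool.Agent.Results.MP_5f0950_ag.SpecialFibre
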