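import Pool.Agent.Y133.Half.Index
import Pool.Agent.H914R2.Blocks

/-!
# A zero-infinity law for the conjecture D on the powers of a variety

Let `W` be a Weil cohomology theory (with any coefficient field `K` of characteristic zero) for
smooth projective varieties over a field `k` of any characteristic, and `X` a variety.  Let `r n` be
the rank of the group of the cycles of all codimensions on the power `X ^ (n + 1)` modulo numerical
equivalence, and `a n` the dimension of the subspace of `H (X ^ (n + 1))` spanned over `K` by the
classes of the cycles.  The following are equivalent.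

* Homological and numerical equivalence agree on every variety which is dominated by some power
  of `X`.
* Homological and numerical equivalence agree on all powers of `X`.
* `r n = a n` for all `n`.
* There is a constant `c > 0` such that `r n ≥ c * a n` for infinitely many `n`.
* The quotient `r n / a n` does not tend to zero as `n` tends to infinity.

So if the conjecture D fails for one variety dominated by a power of `X`, then the classes modulo
numerical equivalence are negligible in number on the high powers of `X`.  No standard conjecture is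
used.
-/

open CategoryTheory AlgebraicGeometry Filter Topology

universe u v

namespace Pool.Agent.Results.MP_5f0950_ag.ZeroInfinityLaw

open Module
open Pool.Agent.H914 Pool.Agent.H914.VarClass Pool.Agent.H914.VarClass.Obj
  Pool.Agent.H914.WeilCohomology Pool.Agent.Y133.Half

variable {k : Type u} [Field k] {𝒱 : VarClass k} {ops : CycleOps 𝒱}

theorem dominates_refl (W : WeilCohomology.{u, v} ops) (Z : 𝒱.Obj) : Dominates W Z Z :=
  ⟨𝟙 Z, 0, Z.V.fundCycle, 1, Z.V.fundCycle_mem, one_ne_zero, by
    rw [W.cl_fund, W.push_id, one_smul]⟩

theorem algDim_pos (W : WeilCohomology.{u, v} ops) (X : 𝒱.Obj) [Nontrivial (W.H X)] (n : ℕ) :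
    0 < algDim W (pw X n) := by
  rw [algDim_eq]
  have h3 : Nontrivial (W.H (pw X n)) := by
    apply Module.nontrivial_of_finrank_pos (R := W.K)
    rw [finrank_pw]
    exact pow_pos Module.finrank_pos _
  rw [Module.finrank_pos_iff]
  exact ⟨⟨⟨1, (algSys W).one (pw X n)⟩, 0, fun h => one_ne_zero (congrArg Subtype.val h)⟩⟩

/-- **The zero-infinity law.**  Here `pw X n` is the product of `n + 1` copies of `X`. -/
theorem result (W : WeilCohomology.{u, v} ops) (X : 𝒱.Obj) [Nontrivial (W.H X)] :
    List.TFAE [
      ∀ n Y, Dominates W (pw X n) Y → HomEqNum W Y,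
      ∀ n, HomEqNum W (pw X n),
      ∀ n, cycRank ops (pw X n) = algDim W (pw X n),
      ∃ c : ℝ, 0 < c ∧ ∃ᶠ n in atTop, c * algDim W (pw X n) ≤ cycRank ops (pw X n),
      ¬ Tendsto (fun n => (cycRank ops (pw X n) : ℝ) / algDim W (pw X n)) atTop (𝓝 0)] := by
  tfae_have 1 → 2 := fun h n => h n _ (dominates_refl W _)
  tfae_have 2 → 1 := fun h n Y hY => (h n).image hY
  tfae_have 2 ↔ 3 := by
    refine forall_congr' fun n => ?_
    rw [homEqNum_iff', algDim_eq]
  tfae_have 3 → 4 := by
    intro h
    refine ⟨1, one_pos, Frequently.of_forall fun n => ?_⟩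
    rw [h n, one_mul]
  tfae_have 4 → 5 := by
    rintro ⟨c, hc, h⟩ ht
    have h1 : ∀ᶠ n in atTop, (cycRank ops (pw X n) : ℝ) / algDim W (pw X n) < c :=
      ht.eventually (gt_mem_nhds hc)
    obtain ⟨n, h2, h3⟩ := (h.and_eventually h1).exists
    have h4 : (0 : ℝ) < algDim W (pw X n) := by exact_mod_cast algDim_pos W X n
    rw [div_lt_iff₀ h4] at h3
    exact absurd h2 (not_le.2 h3)
  tfae_have 5 → 2 := fun h => (d_law W X).resolve_right h
  tfae_finish

end Pool.Agent.Results.MP_5f0950_ag.ZeroInfinityLaw
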